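import Pool.Agent.DFM.Stmts

/-!
# Row HTF of squad DFM (helper27): the height function
-/

set_option autoImplicit false

namespace Pool.Agent.DFM.H27

open Pool.Agent.DFM

/-- the cardinalities of the chains in `[x,y]` -/
def cs {P : Type} [PartialOrder P] (x y : P) : Set ℕ :=
  {k | ∃ c : Finset P, (∀ z ∈ c, x ≤ z ∧ z ≤ y) ∧
    IsChain (fun a b => a ≤ b) (c : Set P) ∧ c.card = k}

theorem cs_zero {P : Type} [PartialOrder P] (x y : P) : 0 ∈ cs x y :=
  ⟨∅, fun z hz => absurd hz (Finset.notMem_empty z), by simp [IsChain], Finset.card_empty⟩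

theorem cs_bdd {P : Type} [PartialOrder P] (hP : LCB P) (x y : P) : BddAbove (cs x y) := by
  obtain ⟨n, hn⟩ := hP x y
  refine ⟨n, ?_⟩
  rintro k ⟨c, h1, h2, rfl⟩
  exact hn c h1 h2

/-- the largest cardinality of a chain -/
noncomputable def mx {P : Type} [PartialOrder P] (x y : P) : ℕ := sSup (cs x y)

theorem mx_mem {P : Type} [PartialOrder P] (hP : LCB P) (x y : P) : mx x y ∈ cs x y :=
  Nat.sSup_mem ⟨0, cs_zero x y⟩ (cs_bdd hP x y)

theorem le_mx {P : Type} [PartialOrder P] (hP : LCB P) {x y : P} {k : ℕ} (h : k ∈ cs x y) :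
    k ≤ mx x y := le_csSup (cs_bdd hP x y) h

theorem one_mem {P : Type} [PartialOrder P] {x y : P} (h : x ≤ y) : 1 ∈ cs x y := by
  classical
  refine ⟨{x}, ?_, ?_, Finset.card_singleton x⟩
  · intro z hz
    rw [Finset.mem_singleton.1 hz]
    exact ⟨le_rfl, h⟩
  · intro a ha b hb hab
    rw [Finset.mem_coe, Finset.mem_singleton] at ha hb
    exact absurd (ha.trans hb.symm) hab

theorem two_mem {P : Type} [PartialOrder P] {x y : P} (h : x < y) : 2 ∈ cs x y := by
  classical
  refine ⟨{x, y}, ?_, ?_, Finset.card_pair h.ne⟩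
  · intro z hz
    rcases Finset.mem_insert.1 hz with rfl | hz
    · exact ⟨le_rfl, h.le⟩
    · rw [Finset.mem_singleton.1 hz]
      exact ⟨h.le, le_rfl⟩
  · intro a ha b hb hab
    rw [Finset.mem_coe, Finset.mem_insert, Finset.mem_singleton] at ha hb
    rcases ha with rfl | rfl
    · rcases hb with rfl | rfl
      · exact absurd rfl hab
      · exact Or.inl h.le
    · rcases hb with rfl | rfl
      · exact Or.inr h.le
      · exact absurd rfl hab

theorem mx_add {P : Type} [PartialOrder P] (hP : LCB P) {x y z : P} (hxy : x ≤ y) (hyz : y ≤ z) :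
    mx x y + mx y z ≤ mx x z + 1 := by
  classical
  obtain ⟨c, h1, h2, h3⟩ := mx_mem hP x y
  obtain ⟨d, h4, h5, h6⟩ := mx_mem hP y z
  have h7 : (c ∪ d).card ∈ cs x z := by
    refine ⟨c ∪ d, ?_, ?_, rfl⟩
    · intro t ht
      rcases Finset.mem_union.1 ht with ht | ht
      · exact ⟨(h1 t ht).1, (h1 t ht).2.trans hyz⟩
      · exact ⟨hxy.trans (h4 t ht).1, (h4 t ht).2⟩
    · intro a ha b hb hab
      rw [Finset.mem_coe, Finset.mem_union] at ha hb
      rcases ha with ha | ha
      · rcases hb with hb | hb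
        · exact h2 (Finset.mem_coe.2 ha) (Finset.mem_coe.2 hb) hab
        · exact Or.inl ((h1 a ha).2.trans (h4 b hb).1)
      · rcases hb with hb | hb
        · exact Or.inr ((h1 b hb).2.trans (h4 a ha).1)
        · exact h5 (Finset.mem_coe.2 ha) (Finset.mem_coe.2 hb) hab
  have h8 : (c ∩ d).card ≤ 1 := by
    rw [Finset.card_le_one]
    intro a ha b hb
    rw [Finset.mem_inter] at ha hb
    have ha' : a = y := le_antisymm (h1 a ha.1).2 (h4 a ha.2).1
    have hb' : b = y := le_antisymm (h1 b hb.1).2 (h4 b hb.2).1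
    rw [ha', hb']
  have h9 := Finset.card_union_add_card_inter c d
  have h10 := le_mx hP h7
  omega

theorem htf : HtfStmt := by
  intro P _ hP
  refine ⟨fun x y => mx x y - 1, ?_, ?_⟩
  · intro x y h
    have := le_mx hP (two_mem h)
    show 1 ≤ mx x y - 1
    omega
  · intro x y z hxy hyz
    have h1 := mx_add hP hxy hyz
    have h2 := le_mx hP (one_mem hxy)
    have h3 := le_mx hP (one_mem hyz)
    show mx x y - 1 + (mx y z - 1) ≤ mx x z - 1
    omega

end Pool.Agent.DFM.H27
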